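import Pool.Agent.Mg.F3792c7p.G1a0828
import Pool.Agent.Mg.F3792c7p.G87303b
import Pool.Agent.Mg.F3792c7p.Gb958ca

/- A non-zero finite multiple zeta value in every large weight and in every weight divisible by
3, 5 or 7. -/

open Pool.Agent.MP_3924c3_nt

namespace Pool.Agent.Results.MP_3924c3_nt.AllLargeWeights

theorem result : ∃ w₀ : ℕ, ∀ w : ℕ, (w₀ ≤ w ∨ 3 ∣ w ∨ 5 ∣ w ∨ 7 ∣ w) →
    ∃ k : Composition w, Set.Infinite {p : ℕ | p.Prime ∧
      (∑ m : Fin k.length → Fin p,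
        if (∀ i j : Fin k.length, i < j → m j < m i) ∧ (∀ i, 0 < (m i : ℕ))
        then ∏ i : Fin k.length, (((m i : ℕ) : ZMod p)⁻¹) ^ k.blocksFun i
        else 0) ≠ 0} :=
  (BR.ALL_pf (BR.MAIN_pf BR.uniform)).imp fun _ h w hw =>
    hw.elim (h w) (FZ.nz_all BK.inf3 BK.inf5 BK.K7.inf7 w)

end Pool.Agent.Results.MP_3924c3_nt.AllLargeWeights
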