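import Pool.Agent.Mg.F3792c7p.Gb958ca

/- For `k = 3, 5, 7` and rational `c`, a positive proportion of primes do not divide `B_(p-k) - c`. -/

open Filter Pool.Agent.MP_3924c3_nt

namespace Pool.Agent.Results.MP_3924c3_nt.BernoulliResidues

theorem result (k : ℕ) (hk : k = 3 ∨ k = 5 ∨ k = 7) (c : ℚ) : ∀ᶠ x : ℕ in atTop,
    (x : ℝ) / (337 * Real.log x) ≤
      (((Finset.Ioc 0 x).filter fun p : ℕ =>
        p.Prime ∧ ¬ (p : ℤ) ∣ (bernoulli (p - k) - c).num).card : ℝ) := by
  letI : BK.I.Cst := ⟨c⟩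
  rcases hk with rfl | rfl | rfl
  · filter_upwards [BK.I.den3, eventually_ge_atTop 1] with x h hx
    refine le_trans ?_ h
    have : 0 ≤ (x : ℝ) / Real.log x := div_nonneg x.cast_nonneg (Real.log_natCast_nonneg x)
    rw [mul_comm, ← div_div, mul_div_assoc]
    linarith
  · filter_upwards [BK.I.den5] with x h
    refine le_trans (le_of_eq ?_) h
    rw [mul_comm, ← div_div, mul_div_assoc]
    ring
  · filter_upwards [BK.K7.den7] with x h
    refine le_trans (le_of_eq ?_) h
    rw [mul_comm, ← div_div, mul_div_assoc]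
    ring

end Pool.Agent.Results.MP_3924c3_nt.BernoulliResidues
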