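import Pool.Agent.Mg.F3792c7p.G1a0828

/- Arbitrarily many of the classes of `B_(p-k)` are linearly independent, along every set of
primes of positive upper density. -/

open Filter

namespace Pool.Agent.Results.MP_3924c3_nt.DimInfinite

theorem result (κ : ℝ) (hκ : 0 < κ) : ∃ C : ℕ, ∀ Q : Set ℕ,
    (∃ᶠ x : ℕ in atTop, κ * x / Real.log x ≤ {p | p ≤ x ∧ p.Prime ∧ p ∈ Q}.ncard) →
    ∀ δ : ℕ, ∃ k : Fin δ → ℕ,
      (∀ i, Odd (k i) ∧ ¬ 3 ∣ k i ∧ 5 ≤ k i ∧ k i ≤ C * (δ + 1) ^ 33) ∧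
      ∀ c : Fin δ → ℚ, c ≠ 0 → Set.Infinite
        {p : ℕ | p ∈ Q ∧ p.Prime ∧ ¬ (p : ℤ) ∣ (∑ i, c i * bernoulli (p - k i)).num} :=
  Pool.Agent.MP_3924c3_nt.BR.uniform κ hκ

end Pool.Agent.Results.MP_3924c3_nt.DimInfinite
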