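import Pool.Agent.Mg.F3792c7p.Gb958ca
import Pool.Agent.Mg.F3792c7p.G2fe8fb

/- The dimension conjecture for finite multiple zeta values in all weights up to 7. -/

namespace Pool.Agent.Results.MP_3924c3_nt.LowWeights

theorem result :
    ∃ d : ℕ → ℕ, d 0 = 1 ∧ d 1 = 0 ∧ d 2 = 0 ∧
      (∀ w : ℕ, 3 ≤ w → d w = d (w - 2) + d (w - 3)) ∧
      ∀ w : ℕ, 1 ≤ w → w ≤ 7 →
        (∃ S : Finset (Composition w), S.card = d w ∧
          ∀ a : Composition w → ℤ, (∀ k, k ∉ S → a k = 0) →
            (∀ᶠ p in (Filter.cofinite : Filter ℕ), Nat.Prime p →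
              (∑ k : Composition w, (a k : ZMod p) *
                ∑ m : Fin k.length → Fin p,
                  if (∀ i j : Fin k.length, i < j → m j < m i) ∧ (∀ i, 0 < (m i : ℕ))
                  then ∏ i : Fin k.length, (((m i : ℕ) : ZMod p)⁻¹) ^ k.blocksFun i
                  else 0) = 0) →
            ∀ k, a k = 0) ∧
        ∀ S : Finset (Composition w),
          (∀ a : Composition w → ℤ, (∀ k, k ∉ S → a k = 0) →
            (∀ᶠ p in (Filter.cofinite : Filter ℕ), Nat.Prime p →
              (∑ k : Composition w, (a k : ZMod p) *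
                ∑ m : Fin k.length → Fin p,
                  if (∀ i j : Fin k.length, i < j → m j < m i) ∧ (∀ i, 0 < (m i : ℕ))
                  then ∏ i : Fin k.length, (((m i : ℕ) : ZMod p)⁻¹) ^ k.blocksFun i
                  else 0) = 0) →
            ∀ k, a k = 0) →
          S.card ≤ d w :=
  Pool.Agent.MP_3924c3_nt.FZ.final7 Pool.Agent.MP_3924c3_nt.BK.inf3 Pool.Agent.MP_3924c3_nt.BK.inf5
    Pool.Agent.MP_3924c3_nt.BK.K7.inf7

end Pool.Agent.Results.MP_3924c3_nt.LowWeights
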